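import Pool.Agent.H73W.XI.A3b

open Complex MeasureTheory Filter Topology Set Metric
open scoped Real

namespace Pool.Agent.H73W.XI
open Pool.Agent.H902R3.XI

lemma log_sq_le {T : ℝ} (hT : 1 ≤ T) : (Real.log T) ^ 2 ≤ 4 * T := by
  have h0 : 0 ≤ Real.log T := Real.log_nonneg hT
  have h1 : Real.log T ≤ 2 * Real.sqrt T := by
    have h2 : Real.log (Real.sqrt T) ≤ Real.sqrt T - 1 :=
      Real.log_le_sub_one_of_pos (Real.sqrt_pos.2 (by linarith))
    rw [Real.log_sqrt (by linarith)] at h2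
    linarith
  calc (Real.log T) ^ 2 ≤ (2 * Real.sqrt T) ^ 2 := pow_le_pow_left₀ h0 h1 2
    _ = 4 * T := by rw [mul_pow, Real.sq_sqrt (by linarith)]; norm_num

lemma log_sq_div_le {T : ℝ} (hT : 1 ≤ T) :
    (Real.log T) ^ 2 / T ≤ 144 * T ^ (-(5 / 6) : ℝ) := by
  have hT0 : 0 < T := by linarith
  have h0 : 0 ≤ Real.log T := Real.log_nonneg hT
  have h1 : Real.log T ≤ T ^ (1 / 12 : ℝ) / (1 / 12) :=
    Real.log_le_rpow_div hT0.le (by norm_num)
  have h2 : (Real.log T) ^ 2 ≤ (T ^ (1 / 12 : ℝ) / (1 / 12)) ^ 2 := pow_le_pow_left₀ h0 h1 2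
  have h3 : (T ^ (1 / 12 : ℝ) / (1 / 12)) ^ 2 = 144 * T ^ (1 / 6 : ℝ) := by
    rw [div_pow, ← Real.rpow_natCast (T ^ (1 / 12 : ℝ)) 2, ← Real.rpow_mul hT0.le]
    norm_num
    ring
  have h4 : T ^ (-(5 / 6) : ℝ) = T ^ (1 / 6 : ℝ) / T := by
    rw [← Real.rpow_sub_one hT0.ne']
    norm_num
  rw [h4, ← mul_div_assoc, ← h3]
  gcongr

lemma ev_eps (c δ : ℝ) (hc : 0 ≤ c) (hδ : 0 < δ) :
    ∀ᶠ T : ℝ in atTop, c * ((Real.log T) ^ 2 / T) ≤ δ := by
  have h1 : Tendsto (fun T : ℝ => c * (144 * T ^ (-(5 / 6) : ℝ))) atTop (𝓝 (c * (144 * 0))) :=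
    ((tendsto_rpow_neg_atTop (by norm_num : (0 : ℝ) < 5 / 6)).const_mul 144).const_mul c
  rw [mul_zero, mul_zero] at h1
  filter_upwards [eventually_ge_atTop 1, h1.eventually (eventually_le_nhds hδ)] with T hT h2
  exact (mul_le_mul_of_nonneg_left (log_sq_div_le hT) hc).trans h2

lemma ev_main (k c : ℝ) (hk : 0 ≤ k) (hc : 0 ≤ c) :
    ∀ᶠ T : ℝ in atTop, k * (c * ((Real.log T) ^ 2 / T) + 1 / (T / 4) ^ 2) ≤
      1 / 4 * T ^ (-(1 / 3) : ℝ) := by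
  have h1 : Tendsto (fun T : ℝ => k * (144 * c + 16) * T ^ (-(1 / 2) : ℝ)) atTop
      (𝓝 (k * (144 * c + 16) * 0)) :=
    (tendsto_rpow_neg_atTop (by norm_num : (0 : ℝ) < 1 / 2)).const_mul _
  rw [mul_zero] at h1
  filter_upwards [eventually_ge_atTop 1,
    h1.eventually (eventually_le_nhds (by norm_num : (0 : ℝ) < 1 / 4))] with T hT h2
  have hT0 : 0 < T := by linarith
  have h3 : 1 / (T / 4) ^ 2 ≤ 16 * T ^ (-(5 / 6) : ℝ) := by
    have h4 : T ^ (-2 : ℝ) ≤ T ^ (-(5 / 6) : ℝ) :=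
      Real.rpow_le_rpow_of_exponent_le hT (by norm_num)
    have h5 : T ^ (-2 : ℝ) = 1 / T ^ 2 := by
      rw [Real.rpow_neg hT0.le, Real.rpow_two, one_div]
    have h6 : 1 / (T / 4) ^ 2 = 16 * (1 / T ^ 2) := by field_simp; norm_num
    rw [h6, ← h5]
    linarith
  have h7 := log_sq_div_le hT
  have h8 : T ^ (-(5 / 6) : ℝ) = T ^ (-(1 / 2) : ℝ) * T ^ (-(1 / 3) : ℝ) := by
    rw [← Real.rpow_add hT0]
    norm_num
  calc k * (c * ((Real.log T) ^ 2 / T) + 1 / (T / 4) ^ 2)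
      ≤ k * (c * (144 * T ^ (-(5 / 6) : ℝ)) + 16 * T ^ (-(5 / 6) : ℝ)) := by gcongr
    _ = (k * (144 * c + 16) * T ^ (-(1 / 2) : ℝ)) * T ^ (-(1 / 3) : ℝ) := by rw [h8]; ring
    _ ≤ 1 / 4 * T ^ (-(1 / 3) : ℝ) := by
      have : 0 ≤ T ^ (-(1 / 3) : ℝ) := Real.rpow_nonneg hT0.le _
      gcongr

lemma ev_small (k α β γ δ : ℝ) (hk : 0 ≤ k) (hδ : 0 < δ) : ∀ᶠ T : ℝ in atTop,
    k * (1 + T ^ 2) ^ 2 * Real.exp (α * T + β * (Real.log T) ^ 2 + γ - δ * T ^ 2) ≤ T⁻¹ := by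
  filter_upwards [eventually_ge_atTop 1,
    eventually_ge_atTop ((5 + |α| + 4 * |β| + k + |γ|) / δ)] with T h1 h2
  have hT0 : 0 < T := by linarith
  rw [div_le_iff₀ hδ] at h2
  have e1 : 1 + T ^ 2 ≤ Real.exp (2 * T) := by
    have h3 : 1 + T ≤ Real.exp T := by
      have := Real.add_one_le_exp T
      linarith
    have h4 : Real.exp (2 * T) = Real.exp T * Real.exp T := by
      rw [← Real.exp_add]; ring_nf
    rw [h4]
    nlinarith
  have e2 : (1 + T ^ 2) ^ 2 ≤ Real.exp (4 * T) := by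
    have h4 : Real.exp (4 * T) = Real.exp (2 * T) ^ 2 := by
      rw [← Real.exp_nat_mul]; ring_nf
    rw [h4]
    exact pow_le_pow_left₀ (by positivity) e1 2
  have e3 : T ≤ Real.exp T := by
    have := Real.add_one_le_exp T
    linarith
  have e4 : k ≤ Real.exp k := by
    have := Real.add_one_le_exp k
    linarith
  have e5 := log_sq_le h1
  rw [← one_div, le_div_iff₀ hT0]
  calc k * (1 + T ^ 2) ^ 2 * Real.exp (α * T + β * (Real.log T) ^ 2 + γ - δ * T ^ 2) * T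
      ≤ Real.exp k * Real.exp (4 * T) *
        Real.exp (α * T + β * (Real.log T) ^ 2 + γ - δ * T ^ 2) * Real.exp T := by
        gcongr
    _ = Real.exp (k + 4 * T + (α * T + β * (Real.log T) ^ 2 + γ - δ * T ^ 2) + T) := by
        rw [← Real.exp_add, ← Real.exp_add, ← Real.exp_add]
    _ ≤ 1 := by
        rw [Real.exp_le_one_iff]
        have a1 : α * T ≤ |α| * T := mul_le_mul_of_nonneg_right (le_abs_self α) hT0.le
        have a2 : β * (Real.log T) ^ 2 ≤ |β| * (4 * T) :=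
          (mul_le_mul_of_nonneg_right (le_abs_self β) (sq_nonneg _)).trans
            (mul_le_mul_of_nonneg_left e5 (abs_nonneg β))
        have a3 : γ ≤ |γ| * T := by
          have := le_abs_self γ
          nlinarith [abs_nonneg γ]
        have a4 : k ≤ k * T := by nlinarith
        have a5 : (5 + |α| + 4 * |β| + k + |γ|) * T ≤ T * δ * T :=
          mul_le_mul_of_nonneg_right h2 hT0.le
        nlinarith

lemma ev_lin (b : ℝ) (hb : 0 ≤ b) : ∀ᶠ T : ℝ in atTop, b * Real.log T + 2 * T ≤ T ^ 2 := by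
  filter_upwards [eventually_ge_atTop 1, eventually_ge_atTop (b + 2)] with T h1 h2
  have h3 : Real.log T ≤ T := by
    have := Real.log_le_sub_one_of_pos (by linarith : 0 < T)
    linarith
  nlinarith [mul_le_mul_of_nonneg_left h3 hb]

lemma ev_inv : ∀ᶠ T : ℝ in atTop, T⁻¹ ≤ 1 / 4 * T ^ (-(1 / 3) : ℝ) := by
  have h1 : Tendsto (fun T : ℝ => T ^ (-(2 / 3) : ℝ)) atTop (𝓝 0) :=
    tendsto_rpow_neg_atTop (by norm_num : (0 : ℝ) < 2 / 3)
  filter_upwards [eventually_ge_atTop 1,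
    h1.eventually (eventually_le_nhds (by norm_num : (0 : ℝ) < 1 / 4))] with T hT h2
  have hT0 : 0 < T := by linarith
  have h3 : T⁻¹ = T ^ (-(2 / 3) : ℝ) * T ^ (-(1 / 3) : ℝ) := by
    rw [← Real.rpow_add hT0, ← Real.rpow_neg_one]
    norm_num
  rw [h3]
  have : 0 ≤ T ^ (-(1 / 3) : ℝ) := Real.rpow_nonneg hT0.le _
  gcongr

lemma aux_sqrt {T : ℝ} (h : 16 ≤ T) : Real.sqrt T ≤ T / 4 := by
  rw [Real.sqrt_le_left (by positivity)]
  nlinarith

lemma aux_abs (v : ℝ) : |v| ≤ 1 + v ^ 2 := by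
  rw [← sq_abs v]
  nlinarith [sq_nonneg (|v| - 1), abs_nonneg v]

lemma aux_fin {K L x v nw : ℝ} (hL : 1 ≤ L) (hK : 0 ≤ K) (h1 : nw ^ 2 = x ^ 2 + v ^ 2)
    (h2 : nw ≤ K * L + |v|) (hx : |x| ≤ K * L) :
    nw ^ 2 + nw * L ≤ (K ^ 2 + K + 2) * L ^ 2 * (1 + v ^ 2) := by
  have hL2 : 1 ≤ L ^ 2 := by nlinarith
  have hLL : L ≤ L ^ 2 := by nlinarith
  have a1 : nw * L ≤ (K * L + |v|) * L := mul_le_mul_of_nonneg_right h2 (by linarith)
  have a2 : |v| * L ≤ (1 + v ^ 2) * L ^ 2 :=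
    mul_le_mul (aux_abs v) hLL (by linarith) (by positivity)
  have a3 : v ^ 2 ≤ v ^ 2 * L ^ 2 := le_mul_of_one_le_right (sq_nonneg v) hL2
  have a4 : 0 ≤ (K ^ 2 + K) * L ^ 2 * v ^ 2 := by positivity
  have hx2 : x ^ 2 ≤ (K * L) ^ 2 := by
    rw [← sq_abs x]
    exact pow_le_pow_left₀ (abs_nonneg _) hx 2
  have b1 : (K ^ 2 + K + 2) * L ^ 2 * (1 + v ^ 2) = (K * L) ^ 2 + K * L ^ 2 + 2 * L ^ 2 +
      (K ^ 2 + K) * L ^ 2 * v ^ 2 + 2 * (v ^ 2 * L ^ 2) := by ring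
  have b2 : (K * L + |v|) * L = K * L ^ 2 + |v| * L := by ring
  have b3 : (1 + v ^ 2) * L ^ 2 = L ^ 2 + v ^ 2 * L ^ 2 := by ring
  rw [b1, h1]
  rw [b2] at a1
  rw [b3] at a2
  have b4 : 0 ≤ v ^ 2 * L ^ 2 := by positivity
  linarith

lemma aux_exp {C' T B C₂ τ L σ l b β : ℝ} (hτ : 0 < τ) (h1 : σ * l ≤ (B * L) * (C₂ * L))
    (h2 : b ^ 2 ≤ ((1 + C₂) * L) ^ 2) :
    -(C' * T + (B * C₂ + τ * (1 + C₂) ^ 2) * L ^ 2) ≤
        -C' * T + (-σ * l - τ * (b ^ 2 - β ^ 2)) := by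
  have h5 : τ * b ^ 2 ≤ τ * ((1 + C₂) * L) ^ 2 := mul_le_mul_of_nonneg_left h2 hτ.le
  have h6 : 0 ≤ τ * β ^ 2 := by positivity
  have e1 : τ * ((1 + C₂) * L) ^ 2 = τ * (1 + C₂) ^ 2 * L ^ 2 := by ring
  have e2 : (B * L) * (C₂ * L) = B * C₂ * L ^ 2 := by ring
  have e3 : (B * C₂ + τ * (1 + C₂) ^ 2) * L ^ 2 = B * C₂ * L ^ 2 + τ * (1 + C₂) ^ 2 * L ^ 2 := by
    ring
  have e4 : τ * (b ^ 2 - β ^ 2) = τ * b ^ 2 - τ * β ^ 2 := by ring
  have e5 : -σ * l = -(σ * l) := by ring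
  have e6 : -C' * T = -(C' * T) := by ring
  rw [e3, e4, e5, e6]
  rw [e1] at h5
  rw [e2] at h1
  linarith

lemma aux_L {T L : ℝ} (h : L ≤ T) : L ≤ (1 + T ^ 2) ^ 2 := by
  nlinarith [sq_nonneg T, sq_nonneg (T - 1), sq_nonneg (T ^ 2)]

lemma aux_end {G p q : ℝ} (hG : 0 ≤ G) (hq : 0 ≤ q) (h : p ≤ 1 / 4 * q) :
    G * p + G * p + G * (1 / 4 * q) ≤ q * G := by
  have h1 := mul_le_mul_of_nonneg_left h hG
  have h2 := mul_nonneg hG hq
  have e1 : G * (1 / 4 * q) = 1 / 4 * (G * q) := by ring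
  have e2 : q * G = G * q := by ring
  rw [e1] at h1 ⊢
  rw [e2]
  linarith

set_option maxHeartbeats 4000000 in
theorem taskA3 (hA2 : TaskA2) (hG : TaskG) (hGup : TaskGup) (hGlow : TaskGlow) : TaskA3 := by
  intro τ hτ B C₂ hB hC₂
  set K : ℝ := (B + 1) + 2 * τ * (1 + C₂) with hKdef
  have hK : 0 < K := by positivity
  obtain ⟨C, hC, T1, hT1⟩ := hG (B + K) (by positivity)
  obtain ⟨C', hC', T2, hT2⟩ := hGlow (B + K) (by positivity)
  obtain ⟨T3, hT3⟩ := hGup (2 * B + 1) (by positivity)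
  set κ : ℝ := (4 * π * τ) ^ (-(1 / 2) : ℝ) with hκ
  have hκ0 : 0 < κ := Real.rpow_pos_of_pos (by positivity) _
  set A : ℝ := ∫ v, Q τ v with hA
  have hA0 : 0 ≤ A := integral_nonneg (Q_nonneg τ)
  set D : ℝ := C * (K ^ 2 + K + 2) with hD
  have hD0 : 0 < D := by positivity
  have hev : ∀ᶠ T : ℝ in atTop, (1 ≤ Real.log T ∧ 16 ≤ T ∧ T1 ≤ T ∧ T2 ≤ T ∧ T3 ≤ T) ∧
      (D * ((Real.log T) ^ 2 / T) ≤ 1 ∧ D * ((Real.log T) ^ 2 / T) ≤ 1 / (16 * τ)) ∧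
      (2 * B + 1) * Real.log T + 2 * T ≤ T ^ 2 ∧
      κ * (Real.exp (1 + 4 * τ) * A) * (D * ((Real.log T) ^ 2 / T) + 1 / (T / 4) ^ 2) ≤
        1 / 4 * T ^ (-(1 / 3) : ℝ) ∧
      (4 * κ * K) * (1 + T ^ 2) ^ 2 * Real.exp (0 * T + K ^ 2 / τ * (Real.log T) ^ 2 +
        (4 * τ + 1) - (1 / (256 * τ)) * T ^ 2) ≤ T⁻¹ ∧
      (2 * κ * A) * (1 + T ^ 2) ^ 2 * Real.exp (C' * T + (1 + (B + 1) ^ 2 / (4 * τ) + B * C₂ +
        τ * (1 + C₂) ^ 2) * (Real.log T) ^ 2 + 0 - (1 / (128 * τ)) * T ^ 2) ≤ T⁻¹ ∧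
      T⁻¹ ≤ 1 / 4 * T ^ (-(1 / 3) : ℝ) := by
    filter_upwards [Real.tendsto_log_atTop.eventually_ge_atTop 1, eventually_ge_atTop 16,
      eventually_ge_atTop T1, eventually_ge_atTop T2, eventually_ge_atTop T3,
      ev_eps D 1 hD0.le one_pos, ev_eps D (1 / (16 * τ)) hD0.le (by positivity),
      ev_lin (2 * B + 1) (by positivity), ev_main (κ * (Real.exp (1 + 4 * τ) * A)) D
        (by positivity) hD0.le,
      ev_small (4 * κ * K) 0 (K ^ 2 / τ) (4 * τ + 1) (1 / (256 * τ)) (by positivity)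
        (by positivity),
      ev_small (2 * κ * A) C' (1 + (B + 1) ^ 2 / (4 * τ) + B * C₂ + τ * (1 + C₂) ^ 2) 0
        (1 / (128 * τ)) (by positivity) (by positivity), ev_inv]
      with T h1 h2 h3 h4 h5 h6 h7 h8 h9 h10 h11 h12
    exact ⟨⟨h1, h2, h3, h4, h5⟩, ⟨h6, h7⟩, h8, h9, h10, h11, h12⟩
  obtain ⟨T₀, hT₀⟩ := eventually_atTop.1 hev
  refine ⟨T₀, fun T hT s hs1 hs2 n hn => ?_⟩
  obtain ⟨⟨hL1, hT16, hTT1, hTT2, hTT3⟩, ⟨hε1, hε2⟩, hlin, hm1, hm2, hm3, hinv⟩ := hT₀ T hT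
  set L : ℝ := Real.log T with hLdef
  set l : ℝ := ell n with hl
  set ε : ℝ := D * (L ^ 2 / T) with hε
  have hT0 : 0 < T := by linarith
  have hε0 : 0 ≤ ε := by positivity
  have hl0 : 0 ≤ l := by
    rw [hl]
    unfold ell
    exact Real.log_nonneg (by have := Nat.cast_nonneg (α := ℝ) n; linarith)
  -- imaginary part
  have hsq : Real.sqrt T ≤ T / 4 := aux_sqrt hT16
  have him := abs_le.1 hs1
  have him1 : 3 / 4 * T ≤ s.im := by linarith [him.1]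
  have him2 : s.im ≤ 5 / 4 * T := by linarith [him.2]
  -- bounds for `a s`
  have ha_im : |(a s).im| ≤ 2 := by
    have h1 : (a s).im = arg (s / (2 * π)) / 2 := by
      unfold a
      rw [Complex.div_ofNat_im, Complex.log_im]
    rw [h1, abs_div, abs_of_pos (by norm_num : (0 : ℝ) < 2)]
    have := Complex.abs_arg_le_pi (s / (2 * π))
    have := Real.pi_le_four
    linarith
  have ha_re : (a s).re = Real.log ‖s / (2 * π)‖ / 2 := by
    unfold a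
    rw [Complex.div_ofNat_re, Complex.log_re]
  have hnorm : ‖s / (2 * π)‖ = ‖s‖ / (2 * π) := by
    rw [norm_div]
    congr 1
    rw [norm_mul, Complex.norm_real, Real.norm_of_nonneg Real.pi_pos.le]
    norm_num
  have hpi4 := Real.pi_le_four
  have hpi3 := Real.pi_gt_three
  have hs_low : 12 ≤ ‖s‖ := by
    have := Complex.abs_im_le_norm s
    have := le_abs_self s.im
    linarith
  have hs_up : ‖s‖ ≤ T ^ 2 := by
    have h1 := Complex.norm_le_abs_re_add_abs_im s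
    have h2 : |s.im| ≤ 2 * T := abs_le.2 ⟨by linarith, by linarith⟩
    have h3 : B * L ≤ (2 * B + 1) * L := mul_le_mul_of_nonneg_right (by linarith) (by linarith)
    linarith
  have ha0 : 0 ≤ (a s).re := by
    rw [ha_re, hnorm]
    have : 1 ≤ ‖s‖ / (2 * π) := by
      rw [le_div_iff₀ (by positivity)]
      linarith
    have := Real.log_nonneg this
    positivity
  have ha1 : (a s).re ≤ L := by
    rw [ha_re, hnorm]
    have h1 : ‖s‖ / (2 * π) ≤ T ^ 2 := by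
      refine (div_le_self (norm_nonneg _) (by linarith)).trans hs_up
    have h2 : Real.log (‖s‖ / (2 * π)) ≤ Real.log (T ^ 2) :=
      Real.log_le_log (by positivity) h1
    rw [Real.log_pow] at h2
    push_cast at h2
    linarith
  have hb : |(a s).re - l| ≤ (1 + C₂) * L := by
    have h1 : (1 + C₂) * L = L + C₂ * L := by ring
    rw [h1]
    apply abs_le.2
    constructor <;> linarith
  set c0 : ℝ := -2 * τ * ((a s).re - l) with hc0def
  set c1 : ℝ := (B + 1) * L with hc1def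
  have hc0 : |c0| ≤ K * L := by
    rw [hc0def, abs_mul, abs_mul, abs_neg, abs_of_pos (by norm_num : (0 : ℝ) < 2), abs_of_pos hτ]
    calc 2 * τ * |(a s).re - l| ≤ 2 * τ * ((1 + C₂) * L) := by gcongr
      _ ≤ K * L := by
        rw [hKdef]
        have h1 : (B + 1 + 2 * τ * (1 + C₂)) * L = (B + 1) * L + 2 * τ * ((1 + C₂) * L) := by ring
        have h2 : 0 ≤ (B + 1) * L := by positivity
        linarith
  have hc1 : |c1| ≤ K * L := by
    rw [hc1def, abs_of_nonneg (by positivity), hKdef]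
    have : 0 ≤ 2 * τ * (1 + C₂) * L := by positivity
    have h1 : (B + 1 + 2 * τ * (1 + C₂)) * L = (B + 1) * L + 2 * τ * (1 + C₂) * L := by ring
    linarith
  have hR1 : InR (B + K) T s := ⟨by linarith, by linarith, by
    refine hs2.trans ?_
    have h1 : (B + K) * L = B * L + K * L := by ring
    have h2 : 0 ≤ K * L := by positivity
    linarith⟩
  have hreg : ∀ x v : ℝ, |x| ≤ K * L → |v| ≤ T / 4 → ∃ e : ℂ,
      hh τ s l (x + v * I) = G0 τ s l * cexp ((x + v * I + 2 * τ * (a s - l)) ^ 2 / (4 * τ) + e) ∧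
      ‖e‖ ≤ ε * (1 + v ^ 2) := by
    intro x v hx hv
    have hvv := abs_le.1 hv
    have him' : (s + ((x : ℂ) + v * I)).im = s.im + v := by simp
    have hre' : (s + ((x : ℂ) + v * I)).re = s.re + x := by simp
    have hR2 : InR (B + K) T (s + ((x : ℂ) + v * I)) := by
      refine ⟨?_, ?_, ?_⟩
      · rw [him']; linarith [hvv.1]
      · rw [him']; linarith [hvv.2]
      · rw [hre']
        calc |s.re + x| ≤ |s.re| + |x| := abs_add_le _ _
          _ ≤ B * L + K * L := add_le_add hs2 hx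
          _ = (B + K) * L := by ring
    obtain ⟨e, he1, he2⟩ := hT1 T hTT1 s _ hR1 hR2
    rw [add_sub_cancel_left] at he1 he2
    refine ⟨e, hh_eq hτ l he1, he2.trans ?_⟩
    have hnw : ‖(x : ℂ) + v * I‖ ^ 2 = x ^ 2 + v ^ 2 := by
      rw [Complex.sq_norm, Complex.normSq_apply]
      simp
      ring
    have hnw2 : ‖(x : ℂ) + v * I‖ ≤ K * L + |v| := by
      have := Complex.norm_le_abs_re_add_abs_im ((x : ℂ) + v * I)
      simp at this
      linarith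
    have hfin : ‖(x : ℂ) + v * I‖ ^ 2 + ‖(x : ℂ) + v * I‖ * L ≤
        (K ^ 2 + K + 2) * L ^ 2 * (1 + v ^ 2) := aux_fin hL1 hK.le hnw hnw2 hx
    calc C * (‖(x : ℂ) + v * I‖ ^ 2 + ‖(x : ℂ) + v * I‖ * L) / T
        ≤ C * ((K ^ 2 + K + 2) * L ^ 2 * (1 + v ^ 2)) / T := by gcongr
      _ = ε * (1 + v ^ 2) := by rw [hε, hD]; ring
  have hV : 0 < T / 4 := by positivity
  have hcpos : ∀ v : ℝ, |v| ≤ T / 4 → 0 < s.im + v := by
    intro v hv
    have := (abs_le.1 hv).1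
    linarith
  -- main segment
  have hcont : ContinuousOn (fun v : ℝ => hh τ s l (c0 + v * I)) (Icc (-(T / 4)) (T / 4)) := by
    intro v hv
    apply ContinuousAt.continuousWithinAt
    have h1 : 0 < (s + ((c0 : ℂ) + v * I)).im := by
      have : (s + ((c0 : ℂ) + v * I)).im = s.im + v := by simp
      rw [this]
      exact hcpos v (abs_le.2 hv)
    have h2 : ContinuousAt (fun v : ℝ => (c0 : ℂ) + v * I) v := by fun_prop
    exact ContinuousAt.comp (f := fun v : ℝ => (c0 : ℂ) + v * I) (g := hh τ s l)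
      (hh_diff l h1).continuousAt h2
  have hmain := main_bound hτ (fun v : ℝ => hh τ s l (c0 + v * I)) (G0 τ s l) (a s).im (T / 4) ε
    hV ha_im hε0 hε1 hε2 (by
      intro v hv
      obtain ⟨e, he1, he2⟩ := hreg c0 v hc0 hv
      refine ⟨e, ?_, he2⟩
      rw [he1, sq_form hτ]
      have h1 : c0 + 2 * τ * ((a s).re - l) = 0 := by rw [hc0def]; ring
      rw [h1]
      congr 3
      have h2 : ((0 : ℝ) ^ 2 - (v + 2 * τ * (a s).im) ^ 2) / (4 * τ) =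
        -(v + 2 * τ * (a s).im) ^ 2 / (4 * τ) := by ring
      rw [h2]
      simp) hcont
  -- horizontal sides
  have hshift := shift (τ := τ) (s := s) (l := l) (c0 := c0) (c1 := c1) (V := T / 4)
    (M := ‖G0 τ s l‖ * Real.exp ((2 * (K * L)) ^ 2 / (4 * τ) + 4 * τ + 1 - (T / 4) ^ 2 / (16 * τ)))
    hV hcpos (by
      intro x hx v hv
      have hx2 : |x| ≤ K * L := by
        have h1 : x ∈ uIcc c0 c1 := uIoc_subset_uIcc hx
        have h2 : uIcc c0 c1 ⊆ Icc (-(K * L)) (K * L) :=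
          uIcc_subset_Icc (abs_le.1 hc0) (abs_le.1 hc1)
        exact abs_le.2 (h2 h1)
      obtain ⟨e, he1, he2⟩ := hreg x v hx2 hv.le
      have h3 := hh_norm hτ (N := 2 * (K * L)) ha_im he1 he2 hε1 hε2 (by
        have h4 : x + 2 * τ * ((a s).re - l) = x - c0 := by rw [hc0def]; ring
        rw [h4]
        calc |x - c0| ≤ |x| + |c0| := abs_sub _ _
          _ ≤ 2 * (K * L) := by linarith)
      have h5 : v ^ 2 = (T / 4) ^ 2 := by rw [← sq_abs v, hv]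
      rwa [h5] at h3)
  -- tails
  have hσ0 : L ≤ s.re + c1 := by
    have := (abs_le.1 hs2).1
    rw [hc1def]
    linarith
  have hσ1 : s.re + c1 ≤ (2 * B + 1) * L := by
    have := (abs_le.1 hs2).2
    rw [hc1def]
    linarith
  obtain ⟨hint, hTm⟩ := hA2 τ hτ s n c1 (by linarith)
  have htail := tail_bound hτ (fun v : ℝ => hh τ s l (c1 + v * I)) (V := T / 4)
    (M := 2 * (1 + T ^ 2) ^ 2 * Real.exp (L ^ 2) *
      Real.exp (c1 ^ 2 / (4 * τ) - T ^ 2 / (128 * τ))) hV (by positivity) hint (by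
      intro v hv
      apply hh_tail hτ hl0 (by linarith) hT0.le hv ?_ (Real.exp_pos _).le ?_
      · have hre : (s + ((c1 : ℂ) + v * I)).re = s.re + c1 := by simp
        exact hT3 T hTT3 _ (by rw [hre]; linarith) (by rw [hre]; exact hσ1)
      · rw [abs_of_pos (by linarith : 0 < s.im)]
        linarith)
  -- lower bound for the main term
  have hG0 : 1 ≤ ‖G0 τ s l‖ * Real.exp (C' * T + (B * C₂ + τ * (1 + C₂) ^ 2) * L ^ 2) := by
    rw [norm_G0]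
    have h1 := hT2 T hTT2 s hR1
    have h2 : ((a s).re - l) ^ 2 ≤ ((1 + C₂) * L) ^ 2 := by
      rw [← sq_abs ((a s).re - l)]
      exact pow_le_pow_left₀ (abs_nonneg _) hb 2
    have h3 : s.re * l ≤ (B * L) * (C₂ * L) := by
      calc s.re * l ≤ |s.re| * l := mul_le_mul_of_nonneg_right (le_abs_self _) hl0
        _ ≤ (B * L) * (C₂ * L) := mul_le_mul hs2 hn hl0 (by positivity)
    have h4 : -(C' * T + (B * C₂ + τ * (1 + C₂) ^ 2) * L ^ 2) ≤
        -C' * T + (-s.re * l - τ * (((a s).re - l) ^ 2 - (a s).im ^ 2)) := aux_exp hτ h3 h2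
    have h7 := Real.exp_le_exp.2 h4
    rw [Real.exp_neg, Real.exp_add (-C' * T)] at h7
    have h8 : (Real.exp (C' * T + (B * C₂ + τ * (1 + C₂) ^ 2) * L ^ 2))⁻¹ ≤
        ‖g s‖ * Real.exp (-s.re * l - τ * (((a s).re - l) ^ 2 - (a s).im ^ 2)) :=
      h7.trans (mul_le_mul_of_nonneg_right h1 (Real.exp_pos _).le)
    rwa [inv_le_iff_one_le_mul₀ (Real.exp_pos _)] at h8
  -- put everything together
  set G := G0 τ s l with hGdef
  have hGn : 0 ≤ ‖G‖ := norm_nonneg _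
  have e1 : κ * (2 * (‖G‖ * Real.exp ((2 * (K * L)) ^ 2 / (4 * τ) + 4 * τ + 1 -
      (T / 4) ^ 2 / (16 * τ)) * |c1 - c0|)) ≤ ‖G‖ * T⁻¹ := by
    have h1 : |c1 - c0| ≤ 2 * K * L := by
      calc |c1 - c0| ≤ |c1| + |c0| := abs_sub _ _
        _ ≤ 2 * K * L := by linarith
    have h2 : (2 * (K * L)) ^ 2 / (4 * τ) + 4 * τ + 1 - (T / 4) ^ 2 / (16 * τ) =
        0 * T + K ^ 2 / τ * L ^ 2 + (4 * τ + 1) - (1 / (256 * τ)) * T ^ 2 := by
      field_simp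
      ring
    have h3 : L ≤ (1 + T ^ 2) ^ 2 := by
      apply aux_L
      have := Real.log_le_sub_one_of_pos hT0
      linarith
    rw [h2]
    set X := Real.exp (0 * T + K ^ 2 / τ * L ^ 2 + (4 * τ + 1) - (1 / (256 * τ)) * T ^ 2) with hX
    have hX0 : 0 < X := Real.exp_pos _
    calc κ * (2 * (‖G‖ * X * |c1 - c0|)) ≤ κ * (2 * (‖G‖ * X * (2 * K * L))) := by gcongr
      _ = ‖G‖ * ((4 * κ * K) * L * X) := by ring
      _ ≤ ‖G‖ * ((4 * κ * K) * (1 + T ^ 2) ^ 2 * X) := by gcongr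
      _ ≤ ‖G‖ * T⁻¹ := by gcongr
  have e2 : κ * (2 * (1 + T ^ 2) ^ 2 * Real.exp (L ^ 2) *
      Real.exp (c1 ^ 2 / (4 * τ) - T ^ 2 / (128 * τ)) * A) ≤ ‖G‖ * T⁻¹ := by
    set Z := κ * (2 * (1 + T ^ 2) ^ 2 * Real.exp (L ^ 2) *
      Real.exp (c1 ^ 2 / (4 * τ) - T ^ 2 / (128 * τ)) * A) with hZ
    have hZ0 : 0 ≤ Z := by positivity
    calc Z ≤ Z * (‖G‖ * Real.exp (C' * T + (B * C₂ + τ * (1 + C₂) ^ 2) * L ^ 2)) :=
          le_mul_of_one_le_right hZ0 hG0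
      _ = ‖G‖ * ((2 * κ * A) * (1 + T ^ 2) ^ 2 * (Real.exp (L ^ 2) *
          Real.exp (c1 ^ 2 / (4 * τ) - T ^ 2 / (128 * τ)) *
          Real.exp (C' * T + (B * C₂ + τ * (1 + C₂) ^ 2) * L ^ 2))) := by rw [hZ]; ring
      _ = ‖G‖ * ((2 * κ * A) * (1 + T ^ 2) ^ 2 * Real.exp (C' * T +
          (1 + (B + 1) ^ 2 / (4 * τ) + B * C₂ + τ * (1 + C₂) ^ 2) * L ^ 2 + 0 -
          (1 / (128 * τ)) * T ^ 2)) := by
          rw [← Real.exp_add, ← Real.exp_add]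
          congr 3
          rw [hc1def]
          field_simp
          ring
      _ ≤ ‖G‖ * T⁻¹ := by gcongr
  have hTm' : Tm τ n s = (κ : ℂ) * ∫ v : ℝ, hh τ s l (c1 + v * I) := hTm
  rw [← G0_eq, ← hGdef] 
  have hnormG : ‖E τ s‖ * Real.exp (-s.re * l - τ * l ^ 2 + 2 * τ * l * (a s).re) = ‖G‖ := by
    rw [hGdef, G0_eq, norm_mul, norm_fac]
  rw [mul_assoc, hnormG]
  set I1 := ∫ v : ℝ, hh τ s l (c1 + v * I) with hI1
  set J1 := ∫ v in (-(T / 4))..(T / 4), hh τ s l (c1 + v * I) with hJ1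
  set J0 := ∫ v in (-(T / 4))..(T / 4), hh τ s l (c0 + v * I) with hJ0
  have hdec : Tm τ n s - G = (κ : ℂ) * (I1 - J1) + (κ : ℂ) * (J1 - J0) + ((κ : ℂ) * J0 - G) := by
    rw [hTm']; ring
  have hκn : ‖(κ : ℂ)‖ = κ := by rw [Complex.norm_real, Real.norm_of_nonneg hκ0.le]
  calc ‖Tm τ n s - G‖ ≤ ‖(κ : ℂ) * (I1 - J1)‖ + ‖(κ : ℂ) * (J1 - J0)‖ + ‖(κ : ℂ) * J0 - G‖ := by
        rw [hdec]
        exact norm_add₃_le
    _ ≤ ‖G‖ * T⁻¹ + ‖G‖ * T⁻¹ + ‖G‖ * (1 / 4 * T ^ (-(1 / 3) : ℝ)) := by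
        refine add_le_add (add_le_add ?_ ?_) ?_
        · rw [norm_mul, hκn]
          exact (mul_le_mul_of_nonneg_left htail hκ0.le).trans e2
        · rw [norm_mul, hκn]
          exact (mul_le_mul_of_nonneg_left hshift hκ0.le).trans e1
        · refine hmain.trans (mul_le_mul_of_nonneg_left ?_ hGn)
          calc κ * (Real.exp (1 + 4 * τ) * (ε + 1 / (T / 4) ^ 2) * A)
              = κ * (Real.exp (1 + 4 * τ) * A) * (ε + 1 / (T / 4) ^ 2) := by ring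
            _ ≤ _ := hm1
    _ ≤ T ^ (-(1 / 3) : ℝ) * ‖G‖ := by
        exact aux_end hGn (Real.rpow_nonneg hT0.le _) hinv

end Pool.Agent.H73W.XI
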