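import Pool.Agent.H902R3.XI.Stmts

open Complex MeasureTheory Filter Topology Set Metric
open scoped Real

namespace Pool.Agent.H73W.XI
open Pool.Agent.H902R3.XI

/-- integrand -/
noncomputable def hh (τ : ℝ) (s : ℂ) (l : ℝ) (w : ℂ) : ℂ :=
  g (s + w) * cexp (-(s + w) * l) * cexp (w ^ 2 / (4 * τ))

/-- the main term -/
noncomputable def G0 (τ : ℝ) (s : ℂ) (l : ℝ) : ℂ := g s * cexp (-s * l - τ * (a s - l) ^ 2)

lemma G0_eq (τ : ℝ) (s : ℂ) (l : ℝ) :
    G0 τ s l = E τ s * cexp (-s * l - τ * (l : ℂ) ^ 2 + 2 * τ * l * a s) := by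
  unfold G0 E
  rw [mul_assoc, ← Complex.exp_add]
  congr 2
  ring

lemma norm_fac (τ : ℝ) (s : ℂ) (l : ℝ) :
    ‖cexp (-s * l - τ * (l : ℂ) ^ 2 + 2 * τ * l * a s)‖ =
      Real.exp (-s.re * l - τ * l ^ 2 + 2 * τ * l * (a s).re) := by
  rw [Complex.norm_exp]
  congr 1
  have h1 : (2 * (τ : ℂ) * l * a s) = ((2 * τ * l : ℝ) : ℂ) * a s := by push_cast; ring
  have h2 : ((τ : ℂ) * (l : ℂ) ^ 2) = ((τ * l ^ 2 : ℝ) : ℂ) := by push_cast; ring
  rw [h1, h2, Complex.add_re, Complex.sub_re, Complex.re_ofReal_mul, Complex.ofReal_re,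
    Complex.re_mul_ofReal, Complex.neg_re]

lemma norm_G0 (τ : ℝ) (s : ℂ) (l : ℝ) :
    ‖G0 τ s l‖ = ‖g s‖ * Real.exp (-s.re * l - τ * (((a s).re - l) ^ 2 - (a s).im ^ 2)) := by
  unfold G0
  rw [norm_mul, Complex.norm_exp]
  congr 2
  have h1 : ((τ : ℂ) * (a s - l) ^ 2).re = τ * (((a s).re - l) ^ 2 - (a s).im ^ 2) := by
    rw [Complex.re_ofReal_mul, sq, Complex.mul_re, Complex.sub_re, Complex.sub_im,
      Complex.ofReal_re, Complex.ofReal_im]
    ring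
  rw [Complex.sub_re, h1, Complex.re_mul_ofReal, Complex.neg_re]

lemma hh_eq {τ : ℝ} (hτ : 0 < τ) {s w e : ℂ} (l : ℝ) (he : g (s + w) = g s * cexp (w * a s + e)) :
    hh τ s l w = G0 τ s l * cexp ((w + 2 * τ * (a s - l)) ^ 2 / (4 * τ) + e) := by
  unfold hh G0
  have hτ' : (τ : ℂ) ≠ 0 := by exact_mod_cast hτ.ne'
  rw [he, mul_assoc, mul_assoc, mul_assoc, ← Complex.exp_add, ← Complex.exp_add,
    ← Complex.exp_add]
  congr 2
  field_simp
  ring

lemma g_diff {z : ℂ} (hz : 0 < z.im) : DifferentiableAt ℂ g z := by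
  unfold g
  have hpi : (π : ℂ) ≠ 0 := by exact_mod_cast Real.pi_ne_zero
  have h1 : DifferentiableAt ℂ (fun s : ℂ => Gamma (s / 2)) z := by
    have h2 : DifferentiableAt ℂ Gamma (z / 2) := by
      apply Complex.differentiableAt_Gamma
      intro m hm
      have h3 := congrArg Complex.im hm
      simp at h3
      exact hz.ne' h3
    exact h2.comp z (by fun_prop)
  have h4 : DifferentiableAt ℂ (fun s : ℂ => (π : ℂ) ^ (-s / 2)) z := by
    apply DifferentiableAt.const_cpow (by fun_prop)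
    exact Or.inl hpi
  exact ((by fun_prop : DifferentiableAt ℂ (fun s : ℂ => s * (s - 1) / 2) z).mul h4).mul h1

lemma hh_diff {τ : ℝ} {s w : ℂ} (l : ℝ) (hw : 0 < (s + w).im) :
    DifferentiableAt ℂ (hh τ s l) w := by
  unfold hh
  have h1 : DifferentiableAt ℂ (fun w => g (s + w)) w :=
    (g_diff hw).comp w (by fun_prop : DifferentiableAt ℂ (fun w => s + w) w)
  have h2 : DifferentiableAt ℂ (fun w : ℂ => cexp (-(s + w) * l)) w := by fun_prop
  have h3 : DifferentiableAt ℂ (fun w : ℂ => cexp (w ^ 2 / (4 * τ))) w := by fun_prop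
  exact (h1.mul h2).mul h3

/-- dominating function -/
noncomputable def Q (τ v : ℝ) : ℝ := (1 + v ^ 2) * Real.exp (-v ^ 2 / (16 * τ))

lemma Q_int {τ : ℝ} (hτ : 0 < τ) : Integrable (Q τ) := by
  have hb : 0 < 1 / (16 * τ) := by positivity
  have h1 := integrable_exp_neg_mul_sq hb
  have h2 := integrable_rpow_mul_exp_neg_mul_sq hb (s := 2) (by norm_num)
  refine (h1.add h2).congr (ae_of_all _ fun v => ?_)
  simp only [Pi.add_apply, Q, Real.rpow_two]
  have : -(1 / (16 * τ)) * v ^ 2 = -v ^ 2 / (16 * τ) := by ring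
  rw [this]
  ring

lemma Q_nonneg (τ v : ℝ) : 0 ≤ Q τ v := by unfold Q; positivity

lemma gauss {τ : ℝ} (hτ : 0 < τ) (β : ℝ) :
    Integrable (fun v : ℝ => Real.exp (-(v + 2 * τ * β) ^ 2 / (4 * τ))) ∧
    ∫ v : ℝ, Real.exp (-(v + 2 * τ * β) ^ 2 / (4 * τ)) = Real.sqrt (4 * π * τ) := by
  have hb : 0 < 1 / (4 * τ) := by positivity
  have e : (fun v : ℝ => Real.exp (-(v + 2 * τ * β) ^ 2 / (4 * τ))) =
      fun v : ℝ => (fun x : ℝ => Real.exp (-(1 / (4 * τ)) * x ^ 2)) (v + 2 * τ * β) := by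
    funext v
    congr 1
    ring
  constructor
  · rw [e]
    exact (integrable_exp_neg_mul_sq hb).comp_add_right _
  · rw [e, integral_add_right_eq_self (fun x : ℝ => Real.exp (-(1 / (4 * τ)) * x ^ 2)),
      integral_gaussian]
    congr 1
    field_simp

lemma sq_ge (v τ β : ℝ) (hτ : 0 < τ) (hβ : |β| ≤ 2) :
    -(v + 2 * τ * β) ^ 2 / (4 * τ) ≤ -v ^ 2 / (8 * τ) + 4 * τ := by
  have h1 : β ^ 2 ≤ 4 := by
    have := sq_abs β
    nlinarith [abs_nonneg β]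
  rw [div_le_iff₀ (by positivity)]
  have e1 : (-v ^ 2 / (8 * τ) + 4 * τ) * (4 * τ) = -v ^ 2 / 2 + 16 * τ ^ 2 := by
    field_simp
    ring
  rw [e1]
  nlinarith [sq_nonneg (v + 4 * τ * β), mul_nonneg (sq_nonneg τ) (by linarith : 0 ≤ 4 - β ^ 2)]

/-- the main segment -/
lemma main_bound {τ : ℝ} (hτ : 0 < τ) (F : ℝ → ℂ) (G : ℂ) (β V ε : ℝ) (hV : 0 < V) (hβ : |β| ≤ 2)
    (hε0 : 0 ≤ ε) (hε1 : ε ≤ 1) (hε2 : ε ≤ 1 / (16 * τ))
    (hF : ∀ v : ℝ, |v| ≤ V → ∃ e : ℂ, F v = G * cexp (((-(v + 2 * τ * β) ^ 2 / (4 * τ) : ℝ) : ℂ) + e) ∧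
      ‖e‖ ≤ ε * (1 + v ^ 2))
    (hc : ContinuousOn F (Icc (-V) V)) :
    ‖(((4 * π * τ) ^ (-(1 / 2) : ℝ) : ℝ) : ℂ) * (∫ v in (-V)..V, F v) - G‖ ≤
      ‖G‖ * ((4 * π * τ) ^ (-(1 / 2) : ℝ) * (Real.exp (1 + 4 * τ) * (ε + 1 / V ^ 2) *
        ∫ v, Q τ v)) := by
  set κ : ℝ := (4 * π * τ) ^ (-(1 / 2) : ℝ) with hκ
  have hpos : 0 < 4 * π * τ := by positivity
  have hκ0 : 0 < κ := Real.rpow_pos_of_pos hpos _
  have hκ1 : κ * Real.sqrt (4 * π * τ) = 1 := by
    rw [hκ, Real.sqrt_eq_rpow, ← Real.rpow_add hpos]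
    norm_num
  obtain ⟨gi, gv⟩ := gauss hτ β
  have hVV : -V ≤ V := by linarith
  have hFi : Integrable ((Ioc (-V) V).indicator F) := by
    rw [integrable_indicator_iff measurableSet_Ioc]
    exact (hc.integrableOn_Icc).mono_set Ioc_subset_Icc_self
  have hGi : Integrable (fun v : ℝ => G * ((Real.exp (-(v + 2 * τ * β) ^ 2 / (4 * τ)) : ℝ) : ℂ)) :=
    gi.ofReal.const_mul G
  have e1 : (κ : ℂ) * (∫ v in (-V)..V, F v) - G =
      (κ : ℂ) * ∫ v, ((Ioc (-V) V).indicator F v -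
        G * ((Real.exp (-(v + 2 * τ * β) ^ 2 / (4 * τ)) : ℝ) : ℂ)) := by
    rw [integral_sub hFi hGi, integral_indicator measurableSet_Ioc,
      ← intervalIntegral.integral_of_le hVV, integral_const_mul, integral_complex_ofReal, gv, mul_sub]
    congr 1
    have : (κ : ℂ) * (G * (Real.sqrt (4 * π * τ) : ℝ)) = G * ((κ * Real.sqrt (4 * π * τ) : ℝ) : ℂ) := by
      push_cast; ring
    rw [this, hκ1]
    simp
  rw [e1, norm_mul, Complex.norm_real, Real.norm_of_nonneg hκ0.le]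
  have key : ∀ v : ℝ, ‖(Ioc (-V) V).indicator F v -
      G * ((Real.exp (-(v + 2 * τ * β) ^ 2 / (4 * τ)) : ℝ) : ℂ)‖ ≤
      ‖G‖ * (Real.exp (1 + 4 * τ) * (ε + 1 / V ^ 2)) * Q τ v := by
    intro v
    have hs := sq_ge v τ β hτ hβ
    by_cases hv : v ∈ Ioc (-V) V
    · rw [indicator_of_mem hv]
      obtain ⟨e, he1, he2⟩ := hF v (abs_le.2 ⟨hv.1.le, hv.2⟩)
      rw [he1, Complex.exp_add, ← Complex.ofReal_exp]
      have e2 : G * (((Real.exp (-(v + 2 * τ * β) ^ 2 / (4 * τ)) : ℝ) : ℂ) * cexp e) -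
          G * ((Real.exp (-(v + 2 * τ * β) ^ 2 / (4 * τ)) : ℝ) : ℂ) =
          G * (((Real.exp (-(v + 2 * τ * β) ^ 2 / (4 * τ)) : ℝ) : ℂ) * (cexp e - 1)) := by ring
      rw [e2, norm_mul, norm_mul, Complex.norm_real, Real.norm_of_nonneg (Real.exp_pos _).le]
      have h3 : ‖cexp e - 1‖ ≤ ‖e‖ * Real.exp ‖e‖ := by
        have := Complex.norm_exp_sub_sum_le_norm_mul_exp e 1
        simpa using this
      have h4 : ‖cexp e - 1‖ ≤ ε * (1 + v ^ 2) * Real.exp (1 + v ^ 2 / (16 * τ)) := by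
        refine h3.trans ?_
        refine mul_le_mul he2 (Real.exp_le_exp.2 (he2.trans ?_)) (Real.exp_pos _).le (by positivity)
        have : ε * v ^ 2 ≤ 1 / (16 * τ) * v ^ 2 := mul_le_mul_of_nonneg_right hε2 (sq_nonneg v)
        have e3 : 1 / (16 * τ) * v ^ 2 = v ^ 2 / (16 * τ) := by ring
        linarith
      calc ‖G‖ * (Real.exp (-(v + 2 * τ * β) ^ 2 / (4 * τ)) * ‖cexp e - 1‖)
          ≤ ‖G‖ * (Real.exp (-v ^ 2 / (8 * τ) + 4 * τ) *
            (ε * (1 + v ^ 2) * Real.exp (1 + v ^ 2 / (16 * τ)))) := by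
            gcongr
        _ = ‖G‖ * (Real.exp (1 + 4 * τ) * ε) * Q τ v := by
            unfold Q
            have e4 : Real.exp (-v ^ 2 / (8 * τ) + 4 * τ) * Real.exp (1 + v ^ 2 / (16 * τ)) =
                Real.exp (1 + 4 * τ) * Real.exp (-v ^ 2 / (16 * τ)) := by
              rw [← Real.exp_add, ← Real.exp_add]
              congr 1
              field_simp
              ring
            calc _ = ‖G‖ * (ε * (1 + v ^ 2)) * (Real.exp (-v ^ 2 / (8 * τ) + 4 * τ) *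
                  Real.exp (1 + v ^ 2 / (16 * τ))) := by ring
              _ = _ := by rw [e4]; ring
        _ ≤ ‖G‖ * (Real.exp (1 + 4 * τ) * (ε + 1 / V ^ 2)) * Q τ v := by
            have := Q_nonneg τ v
            have : 0 ≤ 1 / V ^ 2 := by positivity
            gcongr
            linarith
    · rw [indicator_of_notMem hv, zero_sub, norm_neg, norm_mul, Complex.norm_real,
        Real.norm_of_nonneg (Real.exp_pos _).le]
      have hv' : V ^ 2 ≤ v ^ 2 := by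
        rw [sq_le_sq, abs_of_pos hV]
        by_contra hcon
        push Not at hcon
        exact hv ⟨(abs_lt.1 hcon).1, (abs_lt.1 hcon).2.le⟩
      have h5 : 1 ≤ (1 / V ^ 2) * (1 + v ^ 2) := by
        rw [div_mul_eq_mul_div, one_mul, le_div_iff₀ (by positivity)]
        linarith
      calc ‖G‖ * Real.exp (-(v + 2 * τ * β) ^ 2 / (4 * τ))
          ≤ ‖G‖ * (Real.exp (-v ^ 2 / (8 * τ) + 4 * τ)) := by gcongr
        _ ≤ ‖G‖ * (Real.exp (1 + 4 * τ) * Real.exp (-v ^ 2 / (16 * τ))) := by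
            rw [← Real.exp_add]
            refine mul_le_mul_of_nonneg_left (Real.exp_le_exp.2 ?_) (norm_nonneg _)
            have e5 : v ^ 2 / (16 * τ) ≤ v ^ 2 / (8 * τ) := by
              apply div_le_div_of_nonneg_left (sq_nonneg v) (by positivity) (by linarith)
            have e6 : -v ^ 2 / (8 * τ) = -(v ^ 2 / (8 * τ)) := by ring
            have e7 : -v ^ 2 / (16 * τ) = -(v ^ 2 / (16 * τ)) := by ring
            rw [e6, e7]
            linarith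
        _ ≤ ‖G‖ * (Real.exp (1 + 4 * τ) * Real.exp (-v ^ 2 / (16 * τ))) *
            ((1 / V ^ 2) * (1 + v ^ 2)) := le_mul_of_one_le_right (by positivity) h5
        _ = ‖G‖ * (Real.exp (1 + 4 * τ) * (1 / V ^ 2)) * Q τ v := by unfold Q; ring
        _ ≤ ‖G‖ * (Real.exp (1 + 4 * τ) * (ε + 1 / V ^ 2)) * Q τ v := by
            have := Q_nonneg τ v
            gcongr
            linarith
  have h6 := norm_integral_le_of_norm_le ((Q_int hτ).const_mul
    (‖G‖ * (Real.exp (1 + 4 * τ) * (ε + 1 / V ^ 2)))) (ae_of_all _ key)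
  rw [integral_const_mul] at h6
  calc κ * ‖∫ v, ((Ioc (-V) V).indicator F v -
        G * ((Real.exp (-(v + 2 * τ * β) ^ 2 / (4 * τ)) : ℝ) : ℂ))‖
      ≤ κ * (‖G‖ * (Real.exp (1 + 4 * τ) * (ε + 1 / V ^ 2)) * ∫ v, Q τ v) :=
        mul_le_mul_of_nonneg_left h6 hκ0.le
    _ = _ := by ring

end Pool.Agent.H73W.XI
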