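import Pool.Agent.H73W.XI.A3a

open Complex MeasureTheory Filter Topology Set Metric
open scoped Real

namespace Pool.Agent.H73W.XI
open Pool.Agent.H902R3.XI

lemma shift {τ : ℝ} {s : ℂ} {l c0 c1 V M : ℝ} (hV : 0 < V)
    (hs : ∀ v : ℝ, |v| ≤ V → 0 < s.im + v)
    (hM : ∀ x ∈ uIoc c0 c1, ∀ v : ℝ, |v| = V → ‖hh τ s l (x + v * I)‖ ≤ M) :
    ‖(∫ v in (-V)..V, hh τ s l (c1 + v * I)) - ∫ v in (-V)..V, hh τ s l (c0 + v * I)‖ ≤
      2 * (M * |c1 - c0|) := by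
  have hd : DifferentiableOn ℂ (hh τ s l)
      (uIcc (⟨c0, -V⟩ : ℂ).re (⟨c1, V⟩ : ℂ).re ×ℂ uIcc (⟨c0, -V⟩ : ℂ).im (⟨c1, V⟩ : ℂ).im) := by
    intro w hw
    apply DifferentiableAt.differentiableWithinAt
    apply hh_diff
    rw [Complex.add_im]
    apply hs
    have h2 : w.im ∈ uIcc (-V) V := hw.2
    rw [uIcc_of_le (by linarith)] at h2
    exact abs_le.2 h2
  have h1 := Complex.integral_boundary_rect_eq_zero_of_differentiableOn (hh τ s l)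
    (⟨c0, -V⟩ : ℂ) (⟨c1, V⟩ : ℂ) hd
  simp only at h1
  set A1 := ∫ v in (-V)..V, hh τ s l (c1 + v * I) with hA1
  set A0 := ∫ v in (-V)..V, hh τ s l (c0 + v * I) with hA0
  set H1 := ∫ x in c0..c1, hh τ s l (x + ((-V : ℝ) : ℂ) * I) with hH1
  set H2 := ∫ x in c0..c1, hh τ s l (x + ((V : ℝ) : ℂ) * I) with hH2
  have b1 : ‖H1‖ ≤ M * |c1 - c0| :=
    intervalIntegral.norm_integral_le_of_norm_le_const fun x hx =>
      hM x hx (-V) (by rw [abs_neg, abs_of_pos hV])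
  have b2 : ‖H2‖ ≤ M * |c1 - c0| :=
    intervalIntegral.norm_integral_le_of_norm_le_const fun x hx =>
      hM x hx V (by rw [abs_of_pos hV])
  have h2 : I * (A1 - A0) = H2 - H1 := by
    have h3 : H1 - H2 + I • A1 - I • A0 = 0 := h1
    rw [smul_eq_mul, smul_eq_mul] at h3
    linear_combination h3
  have h4 : ‖A1 - A0‖ = ‖H2 - H1‖ := by
    rw [← h2, norm_mul, Complex.norm_I, one_mul]
  rw [h4]
  calc ‖H2 - H1‖ ≤ ‖H2‖ + ‖H1‖ := norm_sub_le _ _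
    _ ≤ 2 * (M * |c1 - c0|) := by linarith

lemma tail_bound {τ : ℝ} (hτ : 0 < τ) (F : ℝ → ℂ) {V M : ℝ} (hV : 0 < V) (hM0 : 0 ≤ M)
    (hint : Integrable F) (hb : ∀ v : ℝ, V ≤ |v| → ‖F v‖ ≤ M * Q τ v) :
    ‖(∫ v, F v) - ∫ v in (-V)..V, F v‖ ≤ M * ∫ v, Q τ v := by
  have hVV : -V ≤ V := by linarith
  have e1 : (∫ v, F v) - ∫ v in (-V)..V, F v = ∫ v, (F v - (Ioc (-V) V).indicator F v) := by
    rw [integral_sub hint (hint.indicator measurableSet_Ioc), integral_indicator measurableSet_Ioc,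
      ← intervalIntegral.integral_of_le hVV]
  rw [e1, ← integral_const_mul]
  refine norm_integral_le_of_norm_le ((Q_int hτ).const_mul M) (ae_of_all _ fun v => ?_)
  by_cases hv : v ∈ Ioc (-V) V
  · rw [indicator_of_mem hv, sub_self, norm_zero]
    exact mul_nonneg hM0 (Q_nonneg _ _)
  · rw [indicator_of_notMem hv, sub_zero]
    apply hb
    by_contra hcon
    push Not at hcon
    exact hv ⟨(abs_lt.1 hcon).1, (abs_lt.1 hcon).2.le⟩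

lemma sq_form {τ : ℝ} (hτ : 0 < τ) (s : ℂ) (l x v : ℝ) :
    ((x : ℂ) + v * I + 2 * τ * (a s - l)) ^ 2 / (4 * τ) =
      ((((x + 2 * τ * ((a s).re - l)) ^ 2 - (v + 2 * τ * (a s).im) ^ 2) / (4 * τ) : ℝ) : ℂ) +
      (((x + 2 * τ * ((a s).re - l)) * (v + 2 * τ * (a s).im) / (2 * τ) : ℝ) : ℂ) * I := by
  have hτ' : (τ : ℂ) ≠ 0 := by exact_mod_cast hτ.ne'
  have h1 : (x : ℂ) + v * I + 2 * τ * (a s - l) =
      ((x + 2 * τ * ((a s).re - l) : ℝ) : ℂ) + ((v + 2 * τ * (a s).im : ℝ) : ℂ) * I := by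
    apply Complex.ext <;> simp
  rw [h1]
  generalize x + 2 * τ * ((a s).re - l) = X
  generalize v + 2 * τ * (a s).im = Y
  push_cast
  field_simp
  linear_combination (2 * (Y : ℂ) ^ 2) * Complex.I_sq

lemma hh_norm {τ : ℝ} (hτ : 0 < τ) {s e : ℂ} {l x v ε N : ℝ} (hs : |(a s).im| ≤ 2)
    (h : hh τ s l (x + v * I) = G0 τ s l * cexp ((x + v * I + 2 * τ * (a s - l)) ^ 2 / (4 * τ) + e))
    (he : ‖e‖ ≤ ε * (1 + v ^ 2)) (hε1 : ε ≤ 1) (hε2 : ε ≤ 1 / (16 * τ))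
    (hx : |x + 2 * τ * ((a s).re - l)| ≤ N) :
    ‖hh τ s l (x + v * I)‖ ≤
      ‖G0 τ s l‖ * Real.exp (N ^ 2 / (4 * τ) + 4 * τ + 1 - v ^ 2 / (16 * τ)) := by
  rw [h, norm_mul, Complex.norm_exp, sq_form hτ]
  refine mul_le_mul_of_nonneg_left (Real.exp_le_exp.2 ?_) (norm_nonneg _)
  rw [Complex.add_re, Complex.add_re, Complex.ofReal_re, Complex.re_ofReal_mul, Complex.I_re,
    mul_zero, add_zero]
  have h1 : e.re ≤ ε * (1 + v ^ 2) := (Complex.re_le_norm e).trans he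
  have h2 := sq_ge v τ (a s).im hτ hs
  have h3 : (x + 2 * τ * ((a s).re - l)) ^ 2 ≤ N ^ 2 := by
    rw [← sq_abs (x + 2 * τ * ((a s).re - l))]
    exact pow_le_pow_left₀ (abs_nonneg _) hx 2
  have h4 : (x + 2 * τ * ((a s).re - l)) ^ 2 / (4 * τ) ≤ N ^ 2 / (4 * τ) := by gcongr
  have h5 : ((x + 2 * τ * ((a s).re - l)) ^ 2 - (v + 2 * τ * (a s).im) ^ 2) / (4 * τ) =
    (x + 2 * τ * ((a s).re - l)) ^ 2 / (4 * τ) + -(v + 2 * τ * (a s).im) ^ 2 / (4 * τ) := by ring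
  rw [h5]
  have h6 : ε * v ^ 2 ≤ 1 / (16 * τ) * v ^ 2 := mul_le_mul_of_nonneg_right hε2 (sq_nonneg v)
  have h7 : 1 / (16 * τ) * v ^ 2 = v ^ 2 / (16 * τ) := by ring
  have h8 : -v ^ 2 / (8 * τ) = -(v ^ 2 / (16 * τ)) - v ^ 2 / (16 * τ) := by field_simp; ring
  linarith

/-- the crude bound on the right line -/
lemma hh_tail {τ : ℝ} (hτ : 0 < τ) {s : ℂ} {l c v T P : ℝ} (hl : 0 ≤ l) (hσ : 0 ≤ s.re + c)
    (hT : 0 ≤ T) (hv : T / 4 ≤ |v|)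
    (hg : ‖g (s + (c + v * I))‖ ≤ (1 + ‖s + (c + v * I)‖) ^ 2 * P) (hP : 0 ≤ P)
    (hn : s.re + c + |s.im| ≤ T ^ 2) :
    ‖hh τ s l (c + v * I)‖ ≤
      2 * (1 + T ^ 2) ^ 2 * P * Real.exp (c ^ 2 / (4 * τ) - T ^ 2 / (128 * τ)) * Q τ v := by
  unfold hh
  rw [norm_mul, norm_mul, Complex.norm_exp, Complex.norm_exp]
  have h1 : (-(s + ((c : ℂ) + v * I)) * l).re ≤ 0 := by
    rw [Complex.re_mul_ofReal]
    simp only [Complex.neg_re, Complex.add_re, Complex.ofReal_re, Complex.mul_re, Complex.I_re,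
      Complex.ofReal_im, Complex.I_im, mul_zero, mul_one, sub_self, add_zero]
    nlinarith
  have h2 : ((((c : ℂ) + v * I)) ^ 2 / (4 * τ)).re = (c ^ 2 - v ^ 2) / (4 * τ) := by
    have hτ' : (τ : ℂ) ≠ 0 := by exact_mod_cast hτ.ne'
    have : (((c : ℂ) + v * I)) ^ 2 / (4 * τ) =
        (((c ^ 2 - v ^ 2) / (4 * τ) : ℝ) : ℂ) + ((c * v / (2 * τ) : ℝ) : ℂ) * I := by
      push_cast
      field_simp
      linear_combination (2 * (v : ℂ) ^ 2) * Complex.I_sq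
    rw [this, Complex.add_re, Complex.ofReal_re, Complex.re_ofReal_mul, Complex.I_re, mul_zero,
      add_zero]
  rw [h2]
  have h3 : Real.exp (-(s + ((c : ℂ) + v * I)) * l).re ≤ 1 := by
    rw [Real.exp_le_one_iff]
    exact h1
  have h4 : ‖s + ((c : ℂ) + v * I)‖ ≤ T ^ 2 + |v| := by
    have h5 := Complex.norm_le_abs_re_add_abs_im (s + ((c : ℂ) + v * I))
    have h6 : (s + ((c : ℂ) + v * I)).re = s.re + c := by simp
    have h7 : (s + ((c : ℂ) + v * I)).im = s.im + v := by simp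
    rw [h6, h7, abs_of_nonneg hσ] at h5
    have h8 := abs_add_le s.im v
    linarith
  have h5 : (1 + ‖s + ((c : ℂ) + v * I)‖) ^ 2 ≤ (1 + T ^ 2) ^ 2 * (2 * (1 + v ^ 2)) := by
    have h6 : 1 + ‖s + ((c : ℂ) + v * I)‖ ≤ (1 + T ^ 2) * (1 + |v|) := by
      nlinarith [mul_nonneg (sq_nonneg T) (abs_nonneg v)]
    have h7 : (1 + |v|) ^ 2 ≤ 2 * (1 + v ^ 2) := by
      have := sq_abs v
      nlinarith [sq_nonneg (1 - |v|)]
    calc (1 + ‖s + ((c : ℂ) + v * I)‖) ^ 2 ≤ ((1 + T ^ 2) * (1 + |v|)) ^ 2 :=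
          pow_le_pow_left₀ (by positivity) h6 2
      _ = (1 + T ^ 2) ^ 2 * (1 + |v|) ^ 2 := by ring
      _ ≤ _ := by gcongr
  have h6 : Real.exp ((c ^ 2 - v ^ 2) / (4 * τ)) ≤
      Real.exp (c ^ 2 / (4 * τ) - T ^ 2 / (128 * τ)) * Real.exp (-v ^ 2 / (16 * τ)) := by
    rw [← Real.exp_add]
    apply Real.exp_le_exp.2
    have h7 : T ^ 2 / 16 ≤ v ^ 2 := by
      rw [← sq_abs v]
      nlinarith
    have e1 : (c ^ 2 - v ^ 2) / (4 * τ) = c ^ 2 / (4 * τ) - 4 * (v ^ 2 / (16 * τ)) := by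
      field_simp; ring
    have e2 : T ^ 2 / (128 * τ) = T ^ 2 / 16 / (8 * τ) := by
      field_simp; ring
    have e3 : T ^ 2 / 16 / (8 * τ) ≤ v ^ 2 / (8 * τ) := by gcongr
    have e4 : v ^ 2 / (8 * τ) = 2 * (v ^ 2 / (16 * τ)) := by
      field_simp; ring
    have e5 : -v ^ 2 / (16 * τ) = -(v ^ 2 / (16 * τ)) := by ring
    have e6 : 0 ≤ v ^ 2 / (16 * τ) := by positivity
    rw [e1, e2, e5]
    linarith
  calc ‖g (s + (↑c + ↑v * I))‖ * Real.exp (-(s + ((c : ℂ) + v * I)) * l).re *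
        Real.exp ((c ^ 2 - v ^ 2) / (4 * τ))
      ≤ ((1 + T ^ 2) ^ 2 * (2 * (1 + v ^ 2)) * P) * 1 *
        (Real.exp (c ^ 2 / (4 * τ) - T ^ 2 / (128 * τ)) * Real.exp (-v ^ 2 / (16 * τ))) := by
        have h9 : ‖g (s + (↑c + ↑v * I))‖ ≤ (1 + T ^ 2) ^ 2 * (2 * (1 + v ^ 2)) * P :=
          hg.trans (mul_le_mul_of_nonneg_right h5 hP)
        gcongr
    _ = _ := by unfold Q; ring

end Pool.Agent.H73W.XI
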